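import Pool.Agent.Lib.MP_0d4032_co.Construct

set_option autoImplicit false

namespace Pool.Agent.Results.MP_0d4032_co.AllEquiprojective

open Pool.Agent.Lib.MP_0d4032_co

/-- Construction of all equiprojective polyhedra. For every `k` and every set `P` in 3-space the
following are equivalent: `P` is a `k`-equiprojective polyhedron; `P` is built by the constructions
(parallelepiped, adding a segment in a new direction, moving facets, halving a zone) with counter
`k`; for some `n ≤ k` and `r = 2n - k`, `P` arises from a zonotope with `n` zones by one move of the
facets followed by `r` halvings of zones. -/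
theorem result (k : ℕ) (P : Set E3) :
    [IsPolyhedron P ∧ Equiprojective k P,
      Constructible k P,
      ∃ (n r : ℕ) (Z Q : Set E3), n ≤ k ∧ 2 * n = k + r ∧ IsZonotope n Z ∧ IsPolyhedron Q ∧
        StronglyIsomorphic Z Q ∧ Halvings r Q P].TFAE :=
  classification_tfae k P

end Pool.Agent.Results.MP_0d4032_co.AllEquiprojective
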